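import Mathlib
import Pool.Agent.Helper62.WB.Goals

/-! # Normal form in the ascending HNN extension (packet WB-NF, MP_08df5f_al) -/

set_option autoImplicit false

namespace Pool.Agent.Helper35.WB

open Pool.Agent.Helper62.WB

open scoped Classical

variable {Γ : Type} [Group Γ] {σ : Γ →* Γ} {hσ : Function.Injective σ}

theorem t_of (g : Γ) : (HNNExtension.t : Asc σ hσ) * HNNExtension.of g =
    HNNExtension.of (σ g) * HNNExtension.t := by
  have h := HNNExtension.t_mul_of (G := Γ) (A := ⊤) (B := σ.range) (φ := ascEquiv σ hσ)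
    ⟨g, Subgroup.mem_top g⟩
  exact h

theorem tpow_of (n : ℕ) (g : Γ) : (HNNExtension.t : Asc σ hσ) ^ n * HNNExtension.of g =
    HNNExtension.of (σ^[n] g) * HNNExtension.t ^ n := by
  induction n generalizing g with
  | zero => simp
  | succ n ih =>
    rw [pow_succ, mul_assoc, t_of, ← mul_assoc, ih, mul_assoc, Function.iterate_succ_apply]

theorem of_tpow_inv (n : ℕ) (g : Γ) :
    (HNNExtension.of g : Asc σ hσ) * (HNNExtension.t ^ n)⁻¹ =
      (HNNExtension.t ^ n)⁻¹ * HNNExtension.of (σ^[n] g) := by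
  rw [eq_inv_mul_iff_mul_eq, ← mul_assoc, tpow_of, mul_inv_cancel_right]

/-- the normal form -/
def NForm (x : Asc σ hσ) : Prop := ∃ (i j : ℕ) (g : Γ),
  x = (HNNExtension.t ^ i)⁻¹ * HNNExtension.of g * HNNExtension.t ^ j

theorem nform_mul {x y : Asc σ hσ} (hx : NForm x) (hy : NForm y) : NForm (x * y) := by
  obtain ⟨i, j, g, rfl⟩ := hx
  obtain ⟨k, l, h, rfl⟩ := hy
  rcases le_total j k with hjk | hjk
  · obtain ⟨m, rfl⟩ := Nat.exists_eq_add_of_le hjk
    refine ⟨m + i, l, σ^[m] g * h, ?_⟩
    have e1 : (HNNExtension.t : Asc σ hσ) ^ j * (HNNExtension.t ^ (j + m))⁻¹ =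
        (HNNExtension.t ^ m)⁻¹ := by
      rw [add_comm, pow_add, mul_inv_rev, mul_inv_cancel_left]
    have e2 : ((HNNExtension.t : Asc σ hσ) ^ i)⁻¹ * HNNExtension.of g * HNNExtension.t ^ j *
        ((HNNExtension.t ^ (j + m))⁻¹ * HNNExtension.of h * HNNExtension.t ^ l) =
        (HNNExtension.t ^ i)⁻¹ * (HNNExtension.of g * (HNNExtension.t ^ j *
        (HNNExtension.t ^ (j + m))⁻¹)) * HNNExtension.of h * HNNExtension.t ^ l := by group
    rw [e2, e1, of_tpow_inv, pow_add, mul_inv_rev, map_mul]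
    group
  · obtain ⟨m, rfl⟩ := Nat.exists_eq_add_of_le hjk
    refine ⟨i, m + l, g * σ^[m] h, ?_⟩
    have e1 : (HNNExtension.t : Asc σ hσ) ^ (k + m) * (HNNExtension.t ^ k)⁻¹ =
        HNNExtension.t ^ m := by
      rw [add_comm, pow_add, mul_inv_cancel_right]
    have e2 : ((HNNExtension.t : Asc σ hσ) ^ i)⁻¹ * HNNExtension.of g *
        HNNExtension.t ^ (k + m) *
        ((HNNExtension.t ^ k)⁻¹ * HNNExtension.of h * HNNExtension.t ^ l) =
        (HNNExtension.t ^ i)⁻¹ * HNNExtension.of g * ((HNNExtension.t ^ (k + m) *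
        (HNNExtension.t ^ k)⁻¹) * HNNExtension.of h) * HNNExtension.t ^ l := by group
    rw [e2, e1, tpow_of, pow_add, map_mul]
    group

theorem nform (x : Asc σ hσ) : NForm x := by
  induction x using HNNExtension.induction_on with
  | of g => exact ⟨0, 0, g, by simp⟩
  | t => exact ⟨0, 1, 1, by simp⟩
  | mul x y hx hy => exact nform_mul hx hy
  | inv x hx =>
    obtain ⟨i, j, g, rfl⟩ := hx
    refine ⟨j, i, g⁻¹, ?_⟩
    rw [map_inv]
    group

theorem nf : StmtNF := by
  intro Γ _ σ hσ
  refine ⟨fun x => ?_, fun hC => ?_⟩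
  · obtain ⟨i, j, g, rfl⟩ := nform x
    refine ⟨i, j, g, ?_⟩
    rw [zpow_neg, zpow_natCast, zpow_natCast]
  · intro x hx
    obtain ⟨i, j, g, rfl⟩ := nform x
    by_cases hij : i = j
    · subst hij
      have hg : g ≠ 1 := by
        rintro rfl
        apply hx
        simp
      obtain ⟨C, hCn, hCf, hgC, hCs⟩ := hC g hg
      have hle : C ≤ C.comap σ := fun y hy => (hCs y).2 hy
      have hinj : Function.Injective (QuotientGroup.map C C σ hle) := by
        rw [injective_iff_map_eq_one]
        intro y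
        refine QuotientGroup.induction_on y fun z hz => ?_
        rw [QuotientGroup.map_mk, QuotientGroup.eq_one_iff, hCs] at hz
        exact (QuotientGroup.eq_one_iff z).2 hz
      have hbij : Function.Bijective (QuotientGroup.map C C σ hle) :=
        Finite.injective_iff_bijective.1 hinj
      let s : Equiv.Perm (Γ ⧸ C) := Equiv.ofBijective _ hbij
      let ρ : Asc σ hσ →* Equiv.Perm (Γ ⧸ C) :=
        HNNExtension.lift (MulAction.toPermHom Γ (Γ ⧸ C)) s (by
          rintro ⟨a, ha⟩
          ext y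
          refine QuotientGroup.induction_on y fun z => ?_
          show QuotientGroup.map C C σ hle (QuotientGroup.mk (a * z)) =
            σ a • QuotientGroup.map C C σ hle (QuotientGroup.mk z)
          rw [QuotientGroup.map_mk, QuotientGroup.map_mk, map_mul]
          rfl)
      refine ⟨ρ.ker, inferInstance, inferInstance, fun hker => hgC ?_⟩
      have h1 : ρ (HNNExtension.of g) = 1 := by
        rw [MonoidHom.mem_ker, map_mul, map_mul, map_inv] at hker
        have h2 : ρ (HNNExtension.of g) = ρ (HNNExtension.t ^ i) *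
            ((ρ (HNNExtension.t ^ i))⁻¹ * ρ (HNNExtension.of g) * ρ (HNNExtension.t ^ i)) *
            (ρ (HNNExtension.t ^ i))⁻¹ := by group
        rw [h2, hker]
        group
      have h2 : ρ (HNNExtension.of g) = MulAction.toPermHom Γ (Γ ⧸ C) g :=
        HNNExtension.lift_of _ _ _ g
      rw [h2] at h1
      have h3 : MulAction.toPermHom Γ (Γ ⧸ C) g (QuotientGroup.mk 1) = QuotientGroup.mk 1 := by
        rw [h1]
        rfl
      have h4 : (QuotientGroup.mk (g * 1) : Γ ⧸ C) = QuotientGroup.mk 1 := h3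
      rw [mul_one] at h4
      exact (QuotientGroup.eq_one_iff g).1 h4
    · let χ : Asc σ hσ →* Multiplicative (ZMod (i + j + 1)) :=
        HNNExtension.lift 1 (Multiplicative.ofAdd 1) (fun a => by simp)
      refine ⟨χ.ker, inferInstance, inferInstance, fun hker => hij ?_⟩
      have ht : χ HNNExtension.t = Multiplicative.ofAdd 1 := HNNExtension.lift_t _ _ _
      have hg : χ (HNNExtension.of g) = 1 := HNNExtension.lift_of _ _ _ g
      rw [MonoidHom.mem_ker, map_mul, map_mul, map_inv, map_pow, map_pow, ht, hg, mul_one,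
        inv_mul_eq_one, ← ofAdd_nsmul, ← ofAdd_nsmul, nsmul_one, nsmul_one] at hker
      have h1 : ((i : ℕ) : ZMod (i + j + 1)) = ((j : ℕ) : ZMod (i + j + 1)) :=
        Multiplicative.ofAdd.injective hker
      rw [ZMod.natCast_eq_natCast_iff', Nat.mod_eq_of_lt (by omega),
        Nat.mod_eq_of_lt (by omega)] at h1
      exact h1

end Pool.Agent.Helper35.WB
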