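import Mathlib
import Pool.Agent.Helper62.WB.Goals
import Pool.Agent.Helper62.WB.Basic

/-! # Invariant open subgroups (packet WB-TP, MP_08df5f_al) -/

set_option autoImplicit false

namespace Pool.Agent.Helper35.WB

open Pool.Agent.Helper62.WB

/-- finitely many homomorphisms of a finitely generated group to a finite group -/
theorem finite_hom {Γ H : Type} [Group Γ] [Group H] [Finite H] (h : Group.FG Γ) :
    Finite (Γ →* H) := by
  obtain ⟨S, hS⟩ := Group.fg_def.1 h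
  have hinj : Function.Injective (fun (f : Γ →* H) (s : S) => f (s : Γ)) := by
    intro f g hfg
    refine MonoidHom.eq_of_eqOn_dense hS fun x hx => ?_
    exact congrFun hfg ⟨x, hx⟩
  exact Finite.of_injective _ hinj

theorem finite_normal {Γ : Type} [Group Γ] (h : Group.FG Γ) {k : ℕ} (hk : k ≠ 0) :
    {M : Subgroup Γ | M.Normal ∧ M.index = k}.Finite := by
  have h1 : Finite (Γ →* Equiv.Perm (Fin k)) := finite_hom h
  refine (Set.finite_range (fun f : Γ →* Equiv.Perm (Fin k) => f.ker)).subset ?_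
  rintro M ⟨hM, hMk⟩
  have h2 : Nat.card (Γ ⧸ M) = k := hMk
  have h3 : Finite (Γ ⧸ M) := Nat.finite_of_card_ne_zero (by rw [h2]; exact hk)
  let e : Γ ⧸ M ≃ Fin k := Finite.equivFinOfCardEq h2
  refine ⟨e.permCongrHom.toMonoidHom.comp (MulAction.toPermHom Γ (Γ ⧸ M)), ?_⟩
  have h4 : (MulAction.toPermHom Γ (Γ ⧸ M)).ker = M := by
    rw [← Subgroup.normalCore_eq_ker, Subgroup.normalCore_eq_self]
  ext x
  rw [← SetLike.mem_coe, ← SetLike.mem_coe]
  show e.permCongrHom (MulAction.toPermHom Γ (Γ ⧸ M) x) = 1 ↔ x ∈ M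
  rw [map_eq_one_iff _ e.permCongrHom.injective, ← MonoidHom.mem_ker, h4]

theorem nonempty_L (T : RTree) (m : ℕ) : Nonempty (T.L m) := by
  obtain ⟨v, _⟩ := T.root
  obtain ⟨x, _⟩ := exists_bd T 0 v
  exact ⟨x.1 m⟩

theorem pull {T : RTree} {Γ : Type} [Group Γ] {a : TAct T Γ} (hRB : StmtRB)
    (ha : a.WeaklyBranch) {σ : Γ →* Γ} (hσ : Function.Injective σ) (m : ℕ) :
    ∃ n, ∀ g, a.act n (σ g) = 1 → a.act m g = 1 := by
  obtain ⟨v⟩ := nonempty_L T m
  obtain ⟨c, hc, d, hd, hcd⟩ := hRB.1 T Γ a ha m v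
  have h1 : σ (c * d * (d * c)⁻¹) ≠ 1 := by
    intro h2
    rw [← map_one σ] at h2
    exact hcd (mul_inv_eq_one.1 (hσ h2))
  obtain ⟨n, hn⟩ : ∃ n, a.act n (σ (c * d * (d * c)⁻¹)) ≠ 1 := by
    by_contra hcon
    push Not at hcon
    exact h1 (ha.faithful _ hcon)
  refine ⟨n, ?_⟩
  have key : ∀ x, a.act n (σ x) = 1 → a.act m x v = v := by
    intro x hx
    by_contra hne
    have h2 := Rist_conj hc x
    have h3 := Rist_commute ha hne h2 hd
    apply hn
    have h4 : a.act n (σ (x * c * x⁻¹ * d)) = a.act n (σ (d * (x * c * x⁻¹))) := by rw [h3]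
    simp only [map_mul, map_inv, hx, one_mul, inv_one, mul_one] at h4
    simp only [map_mul, map_inv]
    rw [h4, mul_inv_cancel]
  intro x hx
  ext w
  obtain ⟨g, hg⟩ := ha.trans m w v
  have h2 : a.act n (σ (g * x * g⁻¹)) = 1 := by
    rw [map_mul, map_mul, map_mul, map_mul, hx, mul_one, ← map_mul, ← map_mul,
      mul_inv_cancel, map_one, map_one]
  have h3 := key _ h2
  rw [← hg] at h3
  have h4 : (a.act m g)⁻¹ (a.act m g w) = w := (a.act m g).symm_apply_apply w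
  simp only [map_mul, map_inv, Equiv.Perm.mul_apply, h4] at h3
  exact (a.act m g).injective h3

/-- open normal subgroups of index `k` -/
def AA {T : RTree} {Γ : Type} [Group Γ] (a : TAct T Γ) (k : ℕ) : Set (Subgroup Γ) :=
  {M | M.Normal ∧ M.index = k ∧ ∃ n, a.St n ≤ M}

theorem St_mono {T : RTree} {Γ : Type} [Group Γ] (a : TAct T Γ) {n m : ℕ} (h : n ≤ m) :
    a.St m ≤ a.St n := fun _ hg => act_eq_one_of_le a h hg

theorem St_fin {T : RTree} {Γ : Type} [Group Γ] (a : TAct T Γ) (n : ℕ) :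
    (a.St n).FiniteIndex := by
  have h1 : Finite (T.L n) := T.fin n
  have h2 : Finite (Equiv.Perm (T.L n)) := inferInstance
  show (a.act n).ker.FiniteIndex
  infer_instance

theorem dense_sup {T : RTree} {Γ : Type} [Group Γ] {a : TAct T Γ} {σ : Γ →* Γ}
    (hd : a.Dense σ) {M : Subgroup Γ} {n : ℕ} (hM : a.St n ≤ M) : σ.range ⊔ M = ⊤ := by
  rw [eq_top_iff]
  intro g _
  obtain ⟨h, hh⟩ := hd n g
  have h1 : (σ h)⁻¹ * g ∈ M := by
    apply hM
    show a.act n ((σ h)⁻¹ * g) = 1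
    rw [map_mul, map_inv, hh, inv_mul_cancel]
  have h2 : g = σ h * ((σ h)⁻¹ * g) := by group
  rw [h2]
  exact Subgroup.mul_mem_sup ⟨h, rfl⟩ h1

theorem index_comap_eq {T : RTree} {Γ : Type} [Group Γ] {a : TAct T Γ} {σ : Γ →* Γ}
    (hd : a.Dense σ) {M : Subgroup Γ} (hMn : M.Normal) {n : ℕ} (hM : a.St n ≤ M) :
    (M.comap σ).index = M.index := by
  rw [Subgroup.index_comap, ← Subgroup.relIndex_sup_right, dense_sup hd hM,
    Subgroup.relIndex_top_right]

theorem comap_inj {T : RTree} {Γ : Type} [Group Γ] {a : TAct T Γ} {σ : Γ →* Γ}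
    (hd : a.Dense σ) {M M' : Subgroup Γ} {n n' : ℕ} (hM : a.St n ≤ M) (hM' : a.St n' ≤ M')
    (h : M.comap σ ≤ M'.comap σ) : M ≤ M' := by
  intro x hx
  obtain ⟨y, hy⟩ := hd (max n n') x
  have h1 : ∀ k ≤ max n n', a.act k (σ y) = a.act k x := fun k hk => act_eq_of_le a hk hy
  have h2 : ∀ (N : Subgroup Γ) (k : ℕ), k ≤ max n n' → a.St k ≤ N → x⁻¹ * σ y ∈ N := by
    intro N k hk hN
    apply hN
    show a.act k (x⁻¹ * σ y) = 1
    rw [map_mul, map_inv, h1 k hk, inv_mul_cancel]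
  have h3 : σ y ∈ M := by
    have h4 := M.mul_mem hx (h2 M n (le_max_left _ _) hM)
    rwa [mul_inv_cancel_left] at h4
  have h5 : σ y ∈ M' := h h3
  have h6 := h2 M' n' (le_max_right _ _) hM'
  have h7 : x = σ y * (x⁻¹ * σ y)⁻¹ := by group
  rw [h7]
  exact M'.mul_mem h5 (M'.inv_mem h6)

theorem lift_open {T : RTree} {Γ : Type} [Group Γ] {a : TAct T Γ} {σ : Γ →* Γ}
    (hd : a.Dense σ) {M : Subgroup Γ} (hMn : M.Normal) {m n : ℕ} (hM : a.St m ≤ M)
    (hn : ∀ g, a.act n (σ g) = 1 → a.act m g = 1) :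
    ∃ M' : Subgroup Γ, M'.Normal ∧ a.St n ≤ M' ∧ M'.comap σ = M := by
  let M' : Subgroup Γ := (M.map ((a.act n).comp σ)).comap (a.act n)
  have hmem : ∀ y, y ∈ M' ↔ ∃ h ∈ M, a.act n (σ h) = a.act n y := fun y => Iff.rfl
  refine ⟨M', ⟨fun y hy g => ?_⟩, fun y hy => ?_, ?_⟩
  · rw [hmem] at hy ⊢
    obtain ⟨h, hh, hy⟩ := hy
    obtain ⟨k, hk⟩ := hd n g
    refine ⟨k * h * k⁻¹, hMn.conj_mem h hh k, ?_⟩
    simp only [map_mul, map_inv]
    rw [hk, hy]
  · rw [hmem]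
    refine ⟨1, M.one_mem, ?_⟩
    have h1 : a.act n y = 1 := hy
    rw [h1, map_one, map_one]
  · ext g
    rw [Subgroup.mem_comap, hmem]
    constructor
    · rintro ⟨h, hh, hg⟩
      have h1 : a.act n (σ (h⁻¹ * g)) = 1 := by
        rw [map_mul, map_mul, map_inv, map_inv, hg, inv_mul_cancel]
      have h2 : h⁻¹ * g ∈ M := hM (hn _ h1)
      have h3 := M.mul_mem hh h2
      rwa [mul_inv_cancel_left] at h3
    · intro hg
      exact ⟨g, hg, rfl⟩

theorem tp (hRB : StmtRB) : StmtTP := by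
  intro T Γ _ a hfg ha σ hσ hd n
  have hStn := St_fin a n
  obtain ⟨k, hk⟩ : ∃ k, k = (a.St n).index := ⟨_, rfl⟩
  have hk0 : k ≠ 0 := by
    rw [hk]
    exact hStn.index_ne_zero
  have hA : (AA a k).Finite :=
    (finite_normal hfg hk0).subset fun M hM => ⟨hM.1, hM.2.1⟩
  -- the map
  have hsub : AA a k ⊆ (fun M : Subgroup Γ => M.comap σ) '' AA a k := by
    rintro M ⟨hM1, hM2, m, hM3⟩
    obtain ⟨n', hn'⟩ := pull hRB ha hσ m
    obtain ⟨M', h1, h2, h3⟩ := lift_open hd hM1 hM3 hn'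
    refine ⟨M', ⟨h1, ?_, n', h2⟩, h3⟩
    rw [← index_comap_eq hd h1 h2, h3, hM2]
  have hinj : Set.InjOn (fun M : Subgroup Γ => M.comap σ) (AA a k) := by
    rintro M ⟨_, _, m, hM3⟩ M' ⟨_, _, m', hM3'⟩ h
    have h : M.comap σ = M'.comap σ := h
    exact le_antisymm (comap_inj hd hM3 hM3' h.le) (comap_inj hd hM3' hM3 h.ge)
  have heq : AA a k = (fun M : Subgroup Γ => M.comap σ) '' AA a k :=
    Set.eq_of_subset_of_ncard_le hsub (by rw [hinj.ncard_image]) (hA.image _)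
  have hmemC : ∀ x, x ∈ sInf (AA a k) ↔ ∀ M ∈ AA a k, x ∈ M := fun x => Subgroup.mem_sInf
  have hopen : ∃ m, a.St m ≤ sInf (AA a k) := by
    choose! f hf using fun (M : Subgroup Γ) (hM : M ∈ AA a k) => hM.2.2
    obtain ⟨b, hb⟩ := (hA.image f).bddAbove
    refine ⟨b, le_sInf fun M hM => ?_⟩
    exact (St_mono a (hb ⟨M, hM, rfl⟩)).trans (hf M hM)
  refine ⟨sInf (AA a k), ⟨fun x hx g => ?_⟩, ?_, ?_, fun g => ?_, hopen⟩
  · rw [hmemC] at hx ⊢
    intro M hM
    exact hM.1.conj_mem x (hx M hM) g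
  · obtain ⟨m, hm⟩ := hopen
    have h1 := St_fin a m
    exact Subgroup.finiteIndex_of_le hm
  · refine sInf_le ⟨?_, hk.symm, n, le_rfl⟩
    show (a.act n).ker.Normal
    infer_instance
  · constructor
    · intro hg
      rw [hmemC] at hg ⊢
      intro M hM
      rw [heq] at hM
      obtain ⟨M', hM', rfl⟩ := hM
      exact hg M' hM'
    · intro hg
      rw [hmemC] at hg ⊢
      intro M hM
      have h1 : M.comap σ ∈ AA a k := by
        rw [heq]
        exact ⟨M, hM, rfl⟩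
      exact hg _ h1

end Pool.Agent.Helper35.WB
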